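import Mathlib

/-!
# Logarithms modulo powers of an odd prime

For a natural number `x` prime to `p`, `L p a x` in `ZMod (p ^ a)` is the exponent with
`(1 + p) ^ (L p a x) = x ^ (p - 1)` in `ZMod (p ^ (a + 1))`.
-/

set_option autoImplicit false

namespace Pool.Agent.Helper50.T4

/-- `1 + p` as a unit modulo `p ^ (a + 1)`. -/
noncomputable def e1 (p a : ℕ) : (ZMod (p ^ (a + 1)))ˣ :=
  ZMod.unitOfCoprime (1 + p) (Nat.Coprime.pow_right _ (by simp))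

/-- A number prime to `p` as a unit modulo `p ^ (a + 1)`. -/
noncomputable def un {p : ℕ} (a x : ℕ) (hx : x.Coprime p) : (ZMod (p ^ (a + 1)))ˣ :=
  ZMod.unitOfCoprime x (hx.pow_right _)

theorem e1_val (p a : ℕ) : ((e1 p a : (ZMod (p ^ (a + 1)))ˣ) : ZMod (p ^ (a + 1))) = 1 + (p : ℕ) := by
  simp [e1]

theorem un_val {p a x : ℕ} (hx : x.Coprime p) :
    ((un a x hx : (ZMod (p ^ (a + 1)))ˣ) : ZMod (p ^ (a + 1))) = (x : ℕ) := by
  simp [un]

theorem orderOf_e1 {p : ℕ} (hp : p.Prime) (hp2 : p ≠ 2) (a : ℕ) : orderOf (e1 p a) = p ^ a := by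
  rw [← orderOf_units, e1_val]
  exact ZMod.orderOf_one_add_prime hp hp2 a

theorem exists_log {p : ℕ} (hp : p.Prime) (hp2 : p ≠ 2) (a : ℕ) (u : (ZMod (p ^ (a + 1)))ˣ) :
    ∃ m : ℕ, e1 p a ^ m = u ^ (p - 1) := by
  classical
  have : Fact p.Prime := ⟨hp⟩
  have : NeZero (p ^ (a + 1)) := ⟨pow_ne_zero _ hp.ne_zero⟩
  have : IsCyclic (ZMod (p ^ (a + 1)))ˣ := ZMod.isCyclic_units_of_prime_pow p hp hp2 (a + 1)
  have hpos : 0 < p ^ a := pow_pos hp.pos _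
  have h1 : (Finset.univ.filter fun v : (ZMod (p ^ (a + 1)))ˣ => v ^ (p ^ a) = 1).card ≤ p ^ a :=
    IsCyclic.card_pow_eq_one_le hpos
  have h2 : ((Finset.range (p ^ a)).image fun m => e1 p a ^ m) ⊆
      Finset.univ.filter fun v : (ZMod (p ^ (a + 1)))ˣ => v ^ (p ^ a) = 1 := by
    intro v hv
    obtain ⟨m, _, rfl⟩ := Finset.mem_image.mp hv
    refine Finset.mem_filter.mpr ⟨Finset.mem_univ _, ?_⟩
    rw [← pow_mul, mul_comm, pow_mul, ← orderOf_e1 hp hp2 a, pow_orderOf_eq_one, one_pow]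
  have h3 : ((Finset.range (p ^ a)).image fun m => e1 p a ^ m).card = p ^ a := by
    rw [Finset.card_image_of_injOn, Finset.card_range]
    intro m hm m' hm' h
    have hm := Finset.mem_range.mp hm
    have hm' := Finset.mem_range.mp hm'
    have := pow_injOn_Iio_orderOf (x := e1 p a)
    rw [orderOf_e1 hp hp2 a] at this
    exact this hm hm' h
  have h4 := Finset.eq_of_subset_of_card_le h2 (by rw [h3]; exact h1)
  have h5 : u ^ (p - 1) ∈ Finset.univ.filter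
      fun v : (ZMod (p ^ (a + 1)))ˣ => v ^ (p ^ a) = 1 := by
    refine Finset.mem_filter.mpr ⟨Finset.mem_univ _, ?_⟩
    rw [← pow_mul]
    have h6 : (p - 1) * p ^ a = Fintype.card (ZMod (p ^ (a + 1)))ˣ := by
      rw [ZMod.card_units_eq_totient, Nat.totient_prime_pow_succ hp]
      ring
    rw [h6]
    exact pow_card_eq_one
  rw [← h4] at h5
  obtain ⟨m, _, hm⟩ := Finset.mem_image.mp h5
  exact ⟨m, hm⟩

open Classical in
/-- The code of `x` modulo `p ^ a`. -/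
noncomputable def L (p a x : ℕ) : ZMod (p ^ a) :=
  if h : ∃ m : ℕ, ((1 + p : ℕ) : ZMod (p ^ (a + 1))) ^ m = (x : ZMod (p ^ (a + 1))) ^ (p - 1) then
    ((h.choose : ℕ) : ZMod (p ^ a)) else 0

theorem pow_e1_inj {p : ℕ} (hp : p.Prime) (hp2 : p ≠ 2) (a m m' : ℕ) :
    ((1 + p : ℕ) : ZMod (p ^ (a + 1))) ^ m = ((1 + p : ℕ) : ZMod (p ^ (a + 1))) ^ m' ↔
      ((m : ℕ) : ZMod (p ^ a)) = (m' : ℕ) := by
  have h1 : e1 p a ^ m = e1 p a ^ m' ↔ m ≡ m' [MOD p ^ a] := by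
    rw [pow_eq_pow_iff_modEq, orderOf_e1 hp hp2]
  rw [ZMod.natCast_eq_natCast_iff, ← h1, Units.ext_iff]
  simp [e1_val]

/-- Characterisation of the code. -/
theorem L_eq_iff_pow {p : ℕ} (hp : p.Prime) (hp2 : p ≠ 2) (a : ℕ) {x : ℕ} (hx : x.Coprime p)
    (m : ℕ) : L p a x = (m : ℕ) ↔
      ((1 + p : ℕ) : ZMod (p ^ (a + 1))) ^ m = (x : ZMod (p ^ (a + 1))) ^ (p - 1) := by
  have h : ∃ m : ℕ, ((1 + p : ℕ) : ZMod (p ^ (a + 1))) ^ m =
      (x : ZMod (p ^ (a + 1))) ^ (p - 1) := by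
    obtain ⟨m, hm⟩ := exists_log hp hp2 a (un a x hx)
    refine ⟨m, ?_⟩
    have := congrArg (fun u : (ZMod (p ^ (a + 1)))ˣ => (u : ZMod (p ^ (a + 1)))) hm
    simpa [e1_val, un_val] using this
  unfold L
  rw [dif_pos h, ← pow_e1_inj hp hp2, h.choose_spec]
  exact eq_comm

theorem exists_nat_L {p : ℕ} (hp : p.Prime) (a x : ℕ) : ∃ m : ℕ, L p a x = (m : ℕ) := by
  have : NeZero (p ^ a) := ⟨pow_ne_zero _ hp.ne_zero⟩
  exact ⟨(L p a x).val, (ZMod.natCast_zmod_val _).symm⟩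

theorem L_one {p : ℕ} (hp : p.Prime) (hp2 : p ≠ 2) (a : ℕ) : L p a 1 = 0 := by
  have := (L_eq_iff_pow hp hp2 a (x := 1) (by simp) 0).mpr (by simp)
  simpa using this

theorem L_mul {p : ℕ} (hp : p.Prime) (hp2 : p ≠ 2) (a : ℕ) {x y : ℕ} (hx : x.Coprime p)
    (hy : y.Coprime p) : L p a (x * y) = L p a x + L p a y := by
  obtain ⟨m, hm⟩ := exists_nat_L hp a x
  obtain ⟨m', hm'⟩ := exists_nat_L hp a y
  rw [hm, hm', ← Nat.cast_add, L_eq_iff_pow hp hp2 a (Nat.Coprime.mul_left hx hy)]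
  rw [L_eq_iff_pow hp hp2 a hx] at hm
  rw [L_eq_iff_pow hp hp2 a hy] at hm'
  rw [pow_add ((1 + p : ℕ) : ZMod (p ^ (a + 1))) m m', hm, hm', Nat.cast_mul, mul_pow]

theorem L_pow {p : ℕ} (hp : p.Prime) (hp2 : p ≠ 2) (a : ℕ) {x : ℕ} (hx : x.Coprime p) (k : ℕ) :
    L p a (x ^ k) = k * L p a x := by
  induction k with
  | zero => simp [L_one hp hp2]
  | succ k ih =>
    rw [pow_succ, L_mul hp hp2 a (Nat.Coprime.pow_left k hx) hx, ih]
    push_cast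
    ring

/-- The code of `1 + p`. -/
theorem L_one_add {p : ℕ} (hp : p.Prime) (hp2 : p ≠ 2) (a : ℕ) :
    L p a (1 + p) = ((p - 1 : ℕ) : ZMod (p ^ a)) := by
  rw [L_eq_iff_pow hp hp2 a (by simp)]

/-- Two numbers have the same code if and only if the quotient is a root of unity of order
dividing `p - 1`. -/
theorem L_eq_iff {p : ℕ} (hp : p.Prime) (hp2 : p ≠ 2) (a : ℕ) {x y : ℕ} (hx : x.Coprime p)
    (hy : y.Coprime p) : L p a x = L p a y ↔
      (x : ZMod (p ^ (a + 1))) ^ (p - 1) = (y : ZMod (p ^ (a + 1))) ^ (p - 1) := by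
  obtain ⟨m, hm⟩ := exists_nat_L hp a y
  rw [hm, L_eq_iff_pow hp hp2 a hx]
  rw [L_eq_iff_pow hp hp2 a hy] at hm
  rw [hm]
  exact eq_comm

theorem L_congr (p a : ℕ) {x y : ℕ} (h : (x : ZMod (p ^ (a + 1))) = y) :
    L p a x = L p a y := by
  have h1 : ∀ (u v : ZMod (p ^ (a + 1))), u = v →
      (fun w : ZMod (p ^ (a + 1)) => (open Classical in
        if h : ∃ m : ℕ, ((1 + p : ℕ) : ZMod (p ^ (a + 1))) ^ m = w ^ (p - 1) then
          ((h.choose : ℕ) : ZMod (p ^ a)) else 0)) u =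
      (fun w : ZMod (p ^ (a + 1)) => (open Classical in
        if h : ∃ m : ℕ, ((1 + p : ℕ) : ZMod (p ^ (a + 1))) ^ m = w ^ (p - 1) then
          ((h.choose : ℕ) : ZMod (p ^ a)) else 0)) v := by
    rintro u v rfl
    rfl
  exact h1 _ _ h

/-- Compatibility of the codes. -/
theorem L_cast {p : ℕ} (hp : p.Prime) (hp2 : p ≠ 2) {a b : ℕ} (hb : b ≤ a) {x : ℕ}
    (hx : x.Coprime p) :
    ZMod.castHom (pow_dvd_pow p hb) (ZMod (p ^ b)) (L p a x) = L p b x := by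
  obtain ⟨m, hm⟩ := exists_nat_L hp a x
  rw [hm, map_natCast]
  rw [L_eq_iff_pow hp hp2 a hx] at hm
  symm
  rw [L_eq_iff_pow hp hp2 b hx]
  have := congrArg (ZMod.castHom (pow_dvd_pow p (Nat.succ_le_succ hb)) (ZMod (p ^ (b + 1)))) hm
  rw [map_pow, map_pow, map_natCast, map_natCast] at this
  exact this

/-- Compatibility of the codes, with natural representatives. -/
theorem L_cast_nat {p : ℕ} (hp : p.Prime) (hp2 : p ≠ 2) {a b : ℕ} (hb : b ≤ a) {x : ℕ}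
    (hx : x.Coprime p) {m : ℕ} (hm : L p a x = (m : ℕ)) : L p b x = (m : ℕ) := by
  rw [← L_cast hp hp2 hb hx, hm, map_natCast]

/-- Every value is a code. -/
theorem L_surjective {p : ℕ} (hp : p.Prime) (hp2 : p ≠ 2) (a : ℕ) (c : ZMod (p ^ a)) :
    ∃ x : ℕ, x.Coprime p ∧ L p a x = c := by
  have : NeZero (p ^ a) := ⟨pow_ne_zero _ hp.ne_zero⟩
  -- `1 + p` has the code `p - 1`, a unit
  have hc : Nat.Coprime (p - 1) (p ^ a) := by
    refine Nat.Coprime.pow_right _ ?_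
    have := hp.one_lt
    rw [Nat.coprime_comm]
    have h2 : Nat.Coprime (p - 1 + 1) (p - 1) := by simp
    rwa [Nat.sub_add_cancel hp.one_lt.le] at h2
  set v := ZMod.unitOfCoprime (p - 1) hc with hv
  refine ⟨(1 + p) ^ (((v⁻¹ : (ZMod (p ^ a))ˣ) : ZMod (p ^ a)) * c).val,
    Nat.Coprime.pow_left _ (by simp), ?_⟩
  rw [L_pow hp hp2 a (by simp), L_one_add hp hp2, ZMod.natCast_zmod_val]
  have h1 : ((v : (ZMod (p ^ a))ˣ) : ZMod (p ^ a)) = ((p - 1 : ℕ) : ZMod (p ^ a)) := by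
    rw [hv, ZMod.coe_unitOfCoprime]
  rw [← h1, mul_assoc, mul_comm c, ← mul_assoc, Units.inv_mul, one_mul]

/-- At most `p - 1` residues modulo `p ^ (a + 1)` have a given code. -/
theorem card_fibre_le {p : ℕ} (hp : p.Prime) (hp2 : p ≠ 2) (a : ℕ) (c : ZMod (p ^ a))
    (S : Finset ℕ) (hS : ∀ x ∈ S, x < p ^ (a + 1) ∧ x.Coprime p ∧ L p a x = c) :
    S.card ≤ p - 1 := by
  classical
  have : Fact p.Prime := ⟨hp⟩
  have : NeZero (p ^ (a + 1)) := ⟨pow_ne_zero _ hp.ne_zero⟩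
  have : IsCyclic (ZMod (p ^ (a + 1)))ˣ := ZMod.isCyclic_units_of_prime_pow p hp hp2 (a + 1)
  rcases S.eq_empty_or_nonempty with rfl | ⟨y, hy⟩
  · simp
  have h1 : (Finset.univ.filter fun v : (ZMod (p ^ (a + 1)))ˣ => v ^ (p - 1) = 1).card ≤ p - 1 :=
    IsCyclic.card_pow_eq_one_le (Nat.sub_pos_of_lt hp.one_lt)
  refine le_trans (Finset.card_le_card_of_injOn
    (fun x => if h : x.Coprime p then un a x h * (un a y (hS y hy).2.1)⁻¹ else 1)
    ?_ ?_) h1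
  · intro x hx
    obtain ⟨h2, h3, h4⟩ := hS x hx
    simp only [Finset.coe_filter, Finset.mem_univ, true_and, Set.mem_ofPred_eq]
    rw [dif_pos h3, mul_pow, inv_pow, mul_inv_eq_one, Units.ext_iff]
    have h5 := (L_eq_iff hp hp2 a h3 (hS y hy).2.1).mp (h4.trans (hS y hy).2.2.symm)
    simpa [un_val] using h5
  · intro x hx x' hx' h
    obtain ⟨h2, h3, h4⟩ := hS x hx
    obtain ⟨h2', h3', h4'⟩ := hS x' hx'
    simp only [dif_pos h3, dif_pos h3', mul_left_inj] at h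
    have h5 := congrArg (fun u : (ZMod (p ^ (a + 1)))ˣ => (u : ZMod (p ^ (a + 1)))) h
    simp only [un_val] at h5
    rw [ZMod.natCast_eq_natCast_iff] at h5
    exact Nat.ModEq.eq_of_lt_of_lt h5 h2 h2'

/-- Two primes are determined, up to at most `2 (p - 1)` possibilities, by the sum of their codes,
if their product is known to be smaller than the modulus. -/
theorem card_pairs_le {p : ℕ} (hp : p.Prime) (hp2 : p ≠ 2) (a : ℕ) (c : ZMod (p ^ a))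
    (S : Finset (ℕ × ℕ)) (hS : ∀ q ∈ S, q.1.Prime ∧ q.2.Prime ∧ q.1 ≠ p ∧ q.2 ≠ p ∧
      q.1 * q.2 < p ^ (a + 1) ∧ L p a q.1 + L p a q.2 = c) : S.card ≤ 2 * (p - 1) := by
  classical
  have hcop : ∀ {q : ℕ}, q.Prime → q ≠ p → q.Coprime p := fun hq hne =>
    (Nat.coprime_primes hq hp).mpr hne
  have h1 : (S.image fun q => q.1 * q.2).card ≤ p - 1 := by
    refine card_fibre_le hp hp2 a c _ ?_
    intro x hx
    obtain ⟨q, hq, rfl⟩ := Finset.mem_image.mp hx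
    obtain ⟨h1, h2, h3, h4, h5, h6⟩ := hS q hq
    exact ⟨h5, Nat.Coprime.mul_left (hcop h1 h3) (hcop h2 h4),
      (L_mul hp hp2 a (hcop h1 h3) (hcop h2 h4)).trans h6⟩
  refine le_trans (Finset.card_le_mul_card_image S 2 ?_) (Nat.mul_le_mul_left 2 h1)
  intro N hN
  obtain ⟨q0, hq0, hN0⟩ := Finset.mem_image.mp hN
  obtain ⟨g1, g2, -, -, -, -⟩ := hS q0 hq0
  refine le_trans (Finset.card_le_card (t := {q0, (q0.2, q0.1)}) ?_) Finset.card_le_two
  intro q hq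
  rw [Finset.mem_filter] at hq
  obtain ⟨h1, h2, -, -, -, -⟩ := hS q hq.1
  have h3 : q.1 * q.2 = q0.1 * q0.2 := hq.2.trans hN0.symm
  have h4 : q.1 ∣ q0.1 * q0.2 := ⟨q.2, h3.symm⟩
  rw [Finset.mem_insert, Finset.mem_singleton]
  rcases (Nat.Prime.dvd_mul h1).mp h4 with h5 | h5
  · left
    have h6 := (Nat.prime_dvd_prime_iff_eq h1 g1).mp h5
    rw [h6] at h3
    have h7 := Nat.eq_of_mul_eq_mul_left g1.pos h3
    exact Prod.ext h6 h7
  · right
    have h6 := (Nat.prime_dvd_prime_iff_eq h1 g2).mp h5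
    rw [h6, mul_comm q0.1] at h3
    have h7 := Nat.eq_of_mul_eq_mul_left g2.pos h3
    exact Prod.ext h6 h7

/-! ## Linearisation -/

theorem one_add_pow_of_sq_zero {R : Type*} [CommSemiring R] {z : R} (hz : z * z = 0) (s : ℕ) :
    (1 + z) ^ s = 1 + s * z := by
  induction s with
  | zero => simp
  | succ s ih =>
    rw [pow_succ, ih]
    push_cast
    have : (1 + (s : R) * z) * (1 + z) = 1 + ((s : R) + 1) * z + s * (z * z) := by ring
    rw [this, hz, mul_zero, add_zero]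

/-- `(1 + p) ^ (p ^ (b - 1)) = 1 + p ^ b * ε` with `ε` prime to `p`. -/
theorem exists_eps {p : ℕ} (hp : p.Prime) (hp2 : p ≠ 2) (b : ℕ) :
    ∃ ε : ℕ, ε.Coprime p ∧ (1 + p) ^ (p ^ b) = 1 + p ^ (b + 1) * ε := by
  have h3 : 3 ≤ p := by
    have := hp.two_le
    omega
  obtain ⟨y, hy⟩ := ZMod.exists_one_add_mul_pow_prime_pow_eq (R := ℕ) (u := p) (v := p) hp
    dvd_rfl (by
      have h5 : (p : ℕ) * p * p = p ^ 3 := by ring
      rw [Nat.cast_id, h5]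
      exact pow_dvd_pow _ (by omega)) 1 b
  refine ⟨1 + p * y, by simp, ?_⟩
  have h4 : (p : ℕ) ^ b * p * (1 + p * y) = p ^ (b + 1) * (1 + p * y) := by ring
  rw [mul_one] at hy
  rw [hy]
  simp only [Nat.cast_id]
  rw [h4]

/-- The code is linear on short progressions: `L (x + p ^ (b + 1) i) = L x + p ^ b η i` modulo
`p ^ a`, if `a + 1 ≤ 2 (b + 1)`. -/
theorem L_linear {p : ℕ} (hp : p.Prime) (hp2 : p ≠ 2) {a b : ℕ} (hab : a + 1 ≤ 2 * (b + 1)) {x : ℕ}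
    (hx : x.Coprime p) : ∃ η : ℕ, η.Coprime p ∧
      ∀ i : ℕ, L p a (x + p ^ (b + 1) * i) = L p a x + ((p ^ b * (η * i) : ℕ) : ZMod (p ^ a)) := by
  have : NeZero (p ^ (a + 1)) := ⟨pow_ne_zero _ hp.ne_zero⟩
  obtain ⟨ε, hε, he⟩ := exists_eps hp hp2 b
  have hp1 : Nat.Coprime (p - 1) p := by
    have h2 : Nat.Coprime (p - 1 + 1) (p - 1) := by simp
    rw [Nat.sub_add_cancel hp.one_lt.le] at h2
    exact h2.symm
  -- `η ε x = p - 1` modulo `p ^ (a + 1)`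
  have hu : (ε * x).Coprime p := Nat.Coprime.mul_left hε hx
  set w : (ZMod (p ^ (a + 1)))ˣ := (un a (p - 1) hp1) * (un a (ε * x) hu)⁻¹ with hw
  have hη : ((w : ZMod (p ^ (a + 1))).val).Coprime p := by
    have := ZMod.val_coe_unit_coprime w
    exact Nat.Coprime.coprime_dvd_right (dvd_pow_self p (Nat.succ_ne_zero a)) this
  refine ⟨(w : ZMod (p ^ (a + 1))).val, hη, fun i => ?_⟩
  set η := (w : ZMod (p ^ (a + 1))).val with hηd
  have hη2 : (η : ZMod (p ^ (a + 1))) * (ε * x) = ((p - 1 : ℕ) : ZMod (p ^ (a + 1))) := by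
    rw [hηd, ZMod.natCast_zmod_val, hw, Units.val_mul]
    have h1 : ((un a (ε * x) hu : (ZMod (p ^ (a + 1)))ˣ) : ZMod (p ^ (a + 1))) = (ε : ZMod (p ^ (a + 1))) * x := by
      rw [un_val, Nat.cast_mul]
    rw [← h1, mul_assoc, Units.inv_mul, mul_one, un_val]
  have hxi : (x + p ^ (b + 1) * i).Coprime p := by
    have : (p ^ (b + 1) * i : ℕ) = p * (p ^ b * i) := by ring
    rw [this]
    simpa using hx
  obtain ⟨m, hm⟩ := exists_nat_L hp a x
  rw [hm, ← Nat.cast_add, L_eq_iff_pow hp hp2 a hxi]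
  rw [L_eq_iff_pow hp hp2 a hx] at hm
  rw [pow_add ((1 + p : ℕ) : ZMod (p ^ (a + 1))) m, hm,
    pow_mul ((1 + p : ℕ) : ZMod (p ^ (a + 1)))]
  have hz : ((p ^ (b + 1) : ℕ) : ZMod (p ^ (a + 1))) * ((p ^ (b + 1) : ℕ) : ZMod (p ^ (a + 1))) = 0 := by
    rw [← Nat.cast_mul, ← pow_add, ZMod.natCast_eq_zero_iff]
    exact pow_dvd_pow _ (by omega)
  have h1 : ((1 + p : ℕ) : ZMod (p ^ (a + 1))) ^ (p ^ b) =
      1 + ((p ^ (b + 1) : ℕ) : ZMod (p ^ (a + 1))) * ε := by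
    rw [← Nat.cast_pow, he]
    push_cast
    ring
  rw [h1, one_add_pow_of_sq_zero (by
    have : ((p ^ (b + 1) : ℕ) : ZMod (p ^ (a + 1))) * ε * (((p ^ (b + 1) : ℕ) : ZMod (p ^ (a + 1))) * ε) =
      (((p ^ (b + 1) : ℕ) : ZMod (p ^ (a + 1))) * ((p ^ (b + 1) : ℕ) : ZMod (p ^ (a + 1)))) * (ε * ε) := by
      ring
    rw [this, hz, zero_mul])]
  -- the right hand side
  set t : ZMod (p ^ (a + 1)) := (((un a x hx)⁻¹ : (ZMod (p ^ (a + 1)))ˣ) : ZMod (p ^ (a + 1))) * i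
    with ht
  have hxt : (x : ZMod (p ^ (a + 1))) * t = i := by
    rw [ht, ← un_val hx, ← mul_assoc, Units.mul_inv, one_mul]
  have h2 : ((x + p ^ (b + 1) * i : ℕ) : ZMod (p ^ (a + 1))) =
      x * (1 + ((p ^ (b + 1) : ℕ) : ZMod (p ^ (a + 1))) * t) := by
    push_cast
    rw [← hxt]
    ring
  rw [h2, mul_pow, one_add_pow_of_sq_zero (by
    have : ((p ^ (b + 1) : ℕ) : ZMod (p ^ (a + 1))) * t * (((p ^ (b + 1) : ℕ) : ZMod (p ^ (a + 1))) * t) =
      (((p ^ (b + 1) : ℕ) : ZMod (p ^ (a + 1))) * ((p ^ (b + 1) : ℕ) : ZMod (p ^ (a + 1)))) * (t * t) := by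
      ring
    rw [this, hz, zero_mul])]
  congr 2
  rw [← hη2]
  push_cast
  rw [← hxt]
  ring

end Pool.Agent.Helper50.T4
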